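import Mathlib
import Pool.Agent.U214.UN.BoxT
import Pool.Agent.U409.SH.Avg2

/-!
# Families with arbitrary irreducible factors and multiplicities: the local bound
-/

set_option autoImplicit false

namespace Pool.Agent.U214.SF

open Finset Polynomial Pool.Agent.W262.RK Pool.Agent.U214.PT Pool.Agent.U214.GT Pool.Agent.U214.RM
open Pool.Agent.U214.UN
open Pool.Agent.W307.RT (S1 S2 Gd LocM)
open Pool.Agent.U409.SH (qq qq_le locm')
open Pool.Agent.H474R2.PG (rho)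

variable {J : Type} [Fintype J] [DecidableEq J]

/-- the product of the factors -/
noncomputable def FT (P : J → ℤ[X]) : ℤ[X] := ∏ j, P j

/-- the cofactors -/
noncomputable def QP (P : J → ℤ[X]) (j : J) : ℤ[X] := ∏ l ∈ univ.erase j, P l

variable {P : J → ℤ[X]} {d z n : ℕ} {m : ℤ}

lemma FT_mul (P : J → ℤ[X]) (j : J) : P j * QP P j = FT P := mul_prod_erase univ P (mem_univ j)

lemma QP_dvd (P : J → ℤ[X]) {i j : J} (h : i ≠ j) : P j ∣ QP P i :=
  dvd_prod_of_mem _ (mem_erase.2 ⟨h.symm, mem_univ j⟩)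

/-- the values -/
noncomputable def vE (P : J → ℤ[X]) (n : ℕ) (m : ℤ) (j : J) : ℤ := ev (P j) n m

/-- the primes dividing the value do not divide `n` -/
def CpE (P : J → ℤ[X]) (z n : ℕ) (m : ℤ) : Prop :=
  ∀ p : ℕ, p.Prime → z < p → (p : ℤ) ∣ ev (FT P) n m → ¬ p ∣ n

lemma FT_ev (P : J → ℤ[X]) (n : ℕ) (m : ℤ) (j : J) :
    ev (FT P) n m = ev (P j) n m * ev (QP P j) n m := by
  rw [← ev_mul, FT_mul]

lemma CpE.of (hc : CpE P z n m) {p : ℕ} (hp : p.Prime) (hz : z < p) {j : J}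
    (h : (p : ℤ) ∣ ev (P j) n m) : ¬ p ∣ n :=
  hc p hp hz (by rw [FT_ev P n m j]; exact h.mul_right _)

lemma q_nE (hf : Pg (FT P) d z) {p : ℕ} (hp : p.Prime) (hz : z < p) {t : ℤ} (j : J)
    (h : (p : ℤ) ∣ (P j).eval t) : ¬ (p : ℤ) ∣ (QP P j).eval t := fun h2 =>
  no_two hf (by rw [FT_mul]) hp hz h h2

lemma ex_PE (hc : CpE P z n m) {p : ℕ} (hp : p.Prime) (hz : z < p)
    (h : (p : ℤ) ∣ ev (FT P) n m) : ∃ j, (p : ℤ) ∣ ev (P j) n m := by
  have hn := hc p hp hz h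
  have h1 := (dvd_ev hp hn _ m).1 h
  unfold FT at h1
  rw [eval_prod] at h1
  obtain ⟨j, _, hj⟩ := ((Nat.prime_iff_prime_int.1 hp).dvd_finsetProd_iff _).1 h1
  exact ⟨j, (dvd_ev hp hn _ m).2 hj⟩

lemma q_ndE (hf : Pg (FT P) d z) (hc : CpE P z n m) {p : ℕ} (hp : p.Prime) (hz : z < p)
    (j : J) (h : (p : ℤ) ∣ ev (P j) n m) : ¬ (p : ℤ) ∣ ev (QP P j) n m := by
  have hn := hc.of hp hz h
  intro h2
  exact q_nE hf hp hz j ((dvd_ev hp hn _ m).1 h) ((dvd_ev hp hn _ m).1 h2)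

lemma sq_iffE (hf : Pg (FT P) d z) (hc : CpE P z n m) {p : ℕ} (hp : p.Prime) (hz : z < p)
    (j : J) (h : (p : ℤ) ∣ ev (P j) n m) :
    (p : ℤ) ^ 2 ∣ ev (FT P) n m ↔ (p : ℤ) ^ 2 ∣ ev (P j) n m := by
  have hpi : Prime (p : ℤ) := Nat.prime_iff_prime_int.1 hp
  have h1 := q_ndE hf hc hp hz j h
  rw [FT_ev P n m j]
  constructor
  · intro h2
    exact (IsCoprime.pow_left ((Prime.coprime_iff_not_dvd hpi).2 h1)).dvd_of_dvd_mul_right h2
  · intro h2
    exact h2.mul_right _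

lemma P_neE (h0 : ev (FT P) n m ≠ 0) (j : J) : ev (P j) n m ≠ 0 := by
  rw [FT_ev P n m j] at h0
  exact left_ne_zero_of_mul h0

lemma gdE (hf : Pg (FT P) d z) (hc : CpE P z n m) (h0 : ev (FT P) n m ≠ 0) :
    Gd z (vE P n m) := by
  refine ⟨fun j => P_neE h0 j, fun p hp hz j l hjl ⟨h1, h2⟩ => ?_⟩
  refine q_ndE hf hc hp hz j h1 ?_
  obtain ⟨q, hq⟩ := QP_dvd P hjl
  rw [hq, ev_mul]
  exact h2.mul_right _

lemma prod_S1E (hf : Pg (FT P) d z) (hc : CpE P z n m) (h0 : ev (FT P) n m ≠ 0) (y : ℕ) :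
    ∏ j, S1 z y (vE P n m) j = t1 z y (ev (FT P) n m) := by
  classical
  unfold S1 t1
  rw [← prod_biUnion]
  · refine prod_congr ?_ fun _ _ => rfl
    ext p
    simp only [mem_biUnion, mem_filter, mem_univ, true_and]
    constructor
    · rintro ⟨j, hp, h1, h2⟩
      have hp1 := (mem_PS.1 hp).2
      have hp2 := (mem_PS.1 hp).1.1
      refine ⟨hp, ?_, fun h3 => h2 ((sq_iffE hf hc hp1 hp2 j h1).1 h3)⟩
      rw [FT_ev P n m j]
      exact h1.mul_right _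
    · rintro ⟨hp, h1, h2⟩
      have hp1 := (mem_PS.1 hp).2
      have hp2 := (mem_PS.1 hp).1.1
      obtain ⟨j, hj⟩ := ex_PE hc hp1 hp2 h1
      exact ⟨j, hp, hj, fun h3 => h2 ((sq_iffE hf hc hp1 hp2 j hj).2 h3)⟩
  · intro i _ j _ hij
    rw [Function.onFun, disjoint_left]
    intro p hp hp'
    rw [mem_filter] at hp hp'
    exact (gdE hf hc h0).2 p (mem_PS.1 hp.1).2 (mem_PS.1 hp.1).1.1 i j hij ⟨hp.2.1, hp'.2.1⟩

lemma prod_S2E (hf : Pg (FT P) d z) (hc : CpE P z n m) (h0 : ev (FT P) n m ≠ 0) (y : ℕ) :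
    ∏ j, S2 z y (vE P n m) j = t2 z y (ev (FT P) n m) := by
  classical
  unfold S2 t2
  rw [← prod_biUnion]
  · refine prod_congr ?_ fun _ _ => rfl
    ext p
    simp only [mem_biUnion, mem_filter, mem_univ, true_and]
    constructor
    · rintro ⟨j, hp, h1⟩
      refine ⟨hp, ?_⟩
      rw [FT_ev P n m j]
      exact h1.mul_right _
    · rintro ⟨hp, h1⟩
      have hp1 := (mem_PS.1 hp).2
      have hp2 := (mem_PS.1 hp).1.1
      have h2 : (p : ℤ) ∣ ev (FT P) n m := (dvd_pow_self (p : ℤ) two_ne_zero).trans h1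
      obtain ⟨j, hj⟩ := ex_PE hc hp1 hp2 h2
      exact ⟨j, hp, (sq_iffE hf hc hp1 hp2 j hj).1 h1⟩
  · intro i _ j _ hij
    rw [Function.onFun, disjoint_left]
    intro p hp hp'
    rw [mem_filter] at hp hp'
    exact (gdE hf hc h0).2 p (mem_PS.1 hp.1).2 (mem_PS.1 hp.1).1.1 i j hij
      ⟨(dvd_pow_self (p : ℤ) two_ne_zero).trans hp.2, (dvd_pow_self (p : ℤ) two_ne_zero).trans hp'.2⟩

/-- the roots -/
noncomputable def ZP (P : J → ℤ[X]) (j : J) (p : ℕ) : Finset ℕ :=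
  (range p).filter (fun a : ℕ => (p : ℤ) ∣ (P j).eval (a : ℤ))

/-- the roots, marked by the prime -/
noncomputable def ZE (P : J → ℤ[X]) (j : J) (p : ℕ) : Finset ℕ :=
  (ZP P j p).image (fun θ => p ^ 2 + θ)

/-- the constants, twisted by `n` -/
noncomputable def kE (K : J → ℤ[X]) (n : ℕ) (j : J) (θ : ℕ) (_k : Fin 3) : ℤ :=
  (if Nat.sqrt θ ∣ n then 1 else (n : ℤ) ^ (K j).natDegree) * (K j).eval (θ : ℤ)

/-- the characters do not vanish at the roots -/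
def KN (P K : J → ℤ[X]) (z : ℕ) : Prop :=
  ∀ p : ℕ, p.Prime → z < p → ∀ j, ∀ t : ℤ, (p : ℤ) ∣ (P j).eval t → ¬ (p : ℤ) ∣ (K j).eval t

lemma ZP_card (hf : Pg (FT P) d z) {p : ℕ} (hp : p.Prime) (hz : z < p) (j : J) :
    (ZP P j p).card ≤ d := by
  refine le_trans ?_ (hf.rho p hp hz)
  unfold ZP rho
  apply card_le_card
  intro a ha
  rw [mem_filter] at ha ⊢
  refine ⟨ha.1, ?_⟩
  rw [← FT_mul P j, eval_mul]
  exact ha.2.mul_right _

lemma ZE_card (P : J → ℤ[X]) (j : J) (p : ℕ) : (ZE P j p).card = (ZP P j p).card := by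
  unfold ZE
  apply card_image_of_injective
  intro a b h
  simpa using h

lemma hZ_ZE (P : J → ℤ[X]) (h : ℕ → ℝ) : hZ (ZE P) h = hZ (ZP P) h := by
  funext j p
  unfold hZ
  rw [ZE_card]

lemma ZE_mem {j : J} {p θ : ℕ} (h : θ ∈ ZE P j p) :
    Nat.sqrt θ = p ∧ (p : ℤ) ∣ (P j).eval (θ : ℤ) := by
  unfold ZE at h
  obtain ⟨a, ha, rfl⟩ := mem_image.1 h
  unfold ZP at ha
  rw [mem_filter, mem_range] at ha
  refine ⟨sqrt_mark ha.1, ?_⟩
  have h1 := eval_mark (P j) p a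
  have h2 := dvd_add h1 ha.2
  rwa [sub_add_cancel] at h2

lemma kE_nd {K : J → ℤ[X]} (hK : KN P K z) (n : ℕ) {p : ℕ} (hp : p.Prime) (hz : z < p) (j : J)
    {θ : ℕ} (hθ : θ ∈ ZE P j p) (k : Fin 3) : ¬ (p : ℤ) ∣ kE K n j θ k := by
  have hpi : Prime (p : ℤ) := Nat.prime_iff_prime_int.1 hp
  obtain ⟨h1, h2⟩ := ZE_mem hθ
  have h3 := hK p hp hz j _ h2
  unfold kE
  rw [h1]
  intro h
  rcases hpi.dvd_or_dvd h with h4 | h4
  · split_ifs at h4 with h5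
    · exact hpi.not_isUnit (isUnit_of_dvd_one h4)
    · exact h5 (Int.natCast_dvd_natCast.1 (hpi.dvd_of_dvd_pow h4))
  · exact h3 h4

/-- the sign and the residue -/
noncomputable def cE (P : J → ℤ[X]) (n : ℕ) (m : ℤ) (p : ℕ) : Bool × ℕ :=
  (decide (jacobiSym (ev (FT P) n m / p) p = -1), p ^ 2 + th p n m)

lemma LL_neg {c : Fin 4} (hc : c ≠ 3) (κ : Fin 3 → ℤ) (neg neg' : Bool) (p : ℕ) (v w h g : Bool)
    (hL : LL c κ neg p v w h g) : LL c κ neg' p v w h g := by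
  unfold LL at hL ⊢
  rcases f4 c with rfl | rfl | rfl | rfl
  · simpa using hL
  · simpa using hL
  · simpa using hL
  · exact absurd rfl hc

/-- **the local bound** -/
lemma rankE {c : J → Fin 4} (hc3 : ∀ j, c j ≠ 3) {K : J → ℤ[X]} (hK : KN P K z)
    (hf : Pg (FT P) d z) (hcn : CpE P z n m) {y X k e : ℕ}
    (h0 : ev (FT P) n m ≠ 0) (hF : (ev (FT P) n m).natAbs ≤ X ^ e) (he : 1 ≤ e)
    (hy : 1 ≤ y) (hk : X < (y + 1) ^ k) {a b : ℤ} (ha : a ≠ 0) (hb : b ≠ 0) (hab : a ≠ b)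
    (hbad : ∀ q : ℕ, q.Prime → z < q → (q : ℤ) ∣ a * b * (a - b) → (q : ℤ) ∣ ev (FT P) n m)
    (hlo : ∀ p : ℕ, p.Prime → z < p → ¬ p ∣ n → ∀ j, (p : ℤ) ∣ ev (P j) n m →
      ¬ (p : ℤ) ^ 2 ∣ ev (P j) n m →
      LocM (c j) ((n : ℤ) ^ (K j).natDegree * (K j).eval ((p ^ 2 + th p n m : ℕ) : ℤ)) p a b) :
    (qq a b : ℝ) ≤
      (4 : ℝ) ^ (z + 2) * (4 ^ e) ^ k *
        4 ^ (t2 z y (ev (FT P) n m)).primeFactors.card *
        (NL (∏ j, S1 z y (vE P n m) j)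
          (LLc c (kE K n) (S1 z y (vE P n m)) (cE P n m)) : ℝ) := by
  classical
  have hz2 : 2 ≤ z := by have := hf.zd; omega
  obtain ⟨M, hm⟩ : ∃ M, M = t1 z y (ev (FT P) n m) := ⟨_, rfl⟩
  rw [prod_S1E hf hcn h0, ← hm]
  have hmd : M ∣ PP z y := by rw [hm]; exact Nat.dvd_of_mem_divisors (t1_mem _)
  have hPSof : ∀ p : ℕ, p.Prime → p ∣ M → p ∈ PS z y := fun p hp h =>
    (prime_dvd_PP hp).1 (h.trans hmd)
  have hodd : ∀ p : ℕ, p.Prime → p ∣ M → p ≠ 2 := by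
    intro p hp h
    have h1 := (mem_PS.1 (hPSof p hp h)).1.1
    omega
  -- the local data
  have hS1 : ∀ (p : ℕ) (j : J), p.Prime → p ∣ S1 z y (vE P n m) j →
      (p ∈ PS z y ∧ (p : ℤ) ∣ ev (P j) n m ∧ ¬ (p : ℤ) ^ 2 ∣ ev (P j) n m) := by
    intro p j hp hpj
    unfold S1 at hpj
    obtain ⟨q, hq, hpq⟩ := (hp.prime.dvd_finsetProd_iff _).1 hpj
    rw [mem_filter] at hq
    rw [(Nat.prime_dvd_prime_iff_eq hp (mem_PS.1 hq.1).2).1 hpq]
    exact hq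
  have hloc : ∀ (p : ℕ) (j : J), p.Prime → p ∣ S1 z y (vE P n m) j →
      (∀ k, ¬ (p : ℤ) ∣ kE K n j (cE P n m p).2 k) ∧
      ∃ κ : ℤ, kE K n j (cE P n m p).2 = (fun _ => κ) ∧ LocM (c j) κ p a b := by
    intro p j hp hpj
    obtain ⟨hPS, h1, h2⟩ := hS1 p j hp hpj
    have hzp := (mem_PS.1 hPS).1.1
    have hpn := hcn.of hp hzp h1
    have hmem : p ^ 2 + th p n m ∈ ZE P j p := by
      unfold ZE ZP
      refine mem_image_of_mem _ ?_
      rw [mem_filter, mem_range]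
      exact ⟨th_lt hp hpn m, (dvd_ev hp hpn _ m).1 h1⟩
    refine ⟨fun k => kE_nd hK n hp hzp j hmem k, _, ?_, hlo p hp hzp hpn j h1 h2⟩
    funext k
    unfold kE cE
    simp only
    rw [sqrt_mark (th_lt hp hpn m), if_neg hpn]
  have hbd : qq a b ≤ 4 ^ (((2 * a * b * (a - b)).natAbs.primeFactors.filter
      (fun q => ¬ q ∣ M)).card + 2) * NL M (LLc c (kE K n) (S1 z y (vE P n m)) (cE P n m)) := by
    refine qq_le M _ a b ha hb hab ?_ ((PP_squarefree z y).squarefree_of_dvd hmd)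
      (fun p hp hpd => ?_) (fun p hpf hpd e1 e2 he1 he2 hsol => ?_)
    · rw [← Nat.not_even_iff_odd, even_iff_two_dvd]
      intro h
      exact hodd 2 Nat.prime_two h rfl
    · have hx : ∀ j, p ∣ S1 z y (vE P n m) j → XC (LL (c j)
          (kE K n j (cE P n m p).2) (cE P n m p).1 p) := fun j hj =>
        Pool.Agent.W342.RK2.xcl _ _ _ p hp (hodd p hp hpd) (hloc p j hp hj).1
      exact ⟨fun j hj => (hx j hj).1, fun a1 b1 c1 d1 a2 b2 c2 d2 e1 e2 j hj =>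
        (hx j hj).2 a1 b1 c1 d1 a2 b2 c2 d2 (e1 j hj) (e2 j hj)⟩
    · have hp : p.Prime := hpf.out
      intro j hj
      obtain ⟨h1, κ, hκ, h2⟩ := hloc p j hp hj
      have h3 := locm' (c j) κ p a b (hc3 j) (hodd p hp hpd) (by
        have := h1 0
        rw [hκ] at this
        exact this) ha hb hab h2 e1 e2 he1 he2 hsol
      rw [hκ]
      exact LL_neg (hc3 j) _ _ _ _ _ _ _ _ h3
  have hbd' : (qq a b : ℝ) ≤ (4 : ℝ) ^ (((2 * a * b * (a - b)).natAbs.primeFactors.filter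
      (fun q => ¬ q ∣ M)).card + 2) *
      (NL M (LLc c (kE K n) (S1 z y (vE P n m)) (cE P n m)) : ℝ) := by
    exact_mod_cast hbd
  refine hbd'.trans ?_
  apply mul_le_mul_of_nonneg_right _ (Nat.cast_nonneg _)
  have hcard := bad_le (z := z) (y := y) (2 * a * b * (a - b)).natAbs.primeFactors
    (fun q hq => by
      have hp := Nat.prime_of_mem_primeFactors hq
      refine ⟨hp, fun hzq => hbad q hp hzq ?_⟩
      have hqi : Prime (q : ℤ) := Nat.prime_iff_prime_int.1 hp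
      have hdv : (q : ℤ) ∣ 2 * (a * b * (a - b)) := by
        have := Int.natCast_dvd.2 (Nat.dvd_of_mem_primeFactors hq)
        rw [show 2 * a * b * (a - b) = 2 * (a * b * (a - b)) by ring] at this
        exact this
      rcases hqi.dvd_or_dvd hdv with h3 | h3
      · exfalso
        have h4 : q ∣ 2 := by exact_mod_cast h3
        have h5 := Nat.le_of_dvd (by norm_num) h4
        omega
      · exact h3) h0 hF he hy hk
  rw [← hm] at hcard
  calc (4 : ℝ) ^ _ ≤ (4 : ℝ) ^ ((z + 2) + e * k +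
        (t2 z y (ev (FT P) n m)).primeFactors.card) :=
        pow_le_pow_right₀ (by norm_num) (by omega)
    _ = _ := by
        rw [pow_add, pow_add, pow_mul]

end Pool.Agent.U214.SF
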