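import Mathlib
import Pool.Agent.U214.SF.A

/-!
# The weighted sums
-/

set_option autoImplicit false

namespace Pool.Agent.U214.SF

open Finset Polynomial Pool.Agent.W262.RK Pool.Agent.U214.PT Pool.Agent.U214.GT Pool.Agent.U214.RM
open Pool.Agent.U214.UN
open Pool.Agent.H474R2.PG (rho)

variable {J : Type} [Fintype J] [DecidableEq J]
variable {P : J → ℤ[X]} {c : J → Fin 4} {d z : ℕ}

/-- the weights -/
structure WtE (P : J → ℤ[X]) (d z1 : ℕ) (C0 : ℝ) : Prop where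
  pg : Pg (FT P) d z1
  d1 : 1 ≤ d
  w1 : Wt (h0 (FT P)) (2 * d) C0 1 z1
  wj : ∀ j : J, Wt (hZ (ZP P) (h0 (FT P)) j) (2 * d) C0 1 z1
  sv : ∀ z, z1 ≤ z → ∃ C1 : ℝ, 0 ≤ C1 ∧ ∀ y : ℕ, 3 ≤ y → z < y →
      ∏ p ∈ PS z y, (1 - (rho (FT P) p : ℝ) / p) ≤ C1 / (Real.log y) ^ (Fintype.card J)

/-- the number of factors in the class `k` -/
def nc (c : J → Fin 4) (k : Fin 4) : ℕ := (univ.filter (fun j => c j = k)).card

/-- the exponents -/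
structure ExE (c : J → Fin 4) (r : ℕ) (e : ℝ) : Prop where
  nn : 0 ≤ e
  h0 : ((2 : ℝ) ^ r - 1) * (nc c 0 - ((nc c 1 : ℝ) + nc c 2) / 2 ^ r) ≤ e
  h1 : ((2 : ℝ) ^ r - 1) * (nc c 1 - ((nc c 0 : ℝ) + nc c 2) / 2 ^ r) ≤ e
  h2 : ((2 : ℝ) ^ r - 1) * (nc c 2 - ((nc c 0 : ℝ) + nc c 1) / 2 ^ r) ≤ e

/-- the sum with the weights, all characters -/
theorem ma_E {K : J → ℤ[X]} {r : ℕ} {e : ℝ} {z1 : ℕ} {C0 : ℝ} (hW : WtE P d z1 C0)
    (hE : ExE c r e) (hK : KN P K z1) :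
    ∃ z0 : ℕ, ∀ z, z0 ≤ z → z1 ≤ z → ∃ C : ℝ, ∀ n y : ℕ, z < y →
      ∑ s ∈ Tup J z y, NBS r c (ZE P) (kE K n) s *
        ∏ j, gh (h0 (FT P)) (s j) ≤ C * (Real.log y) ^ ((Fintype.card J : ℝ) + e) := by
  classical
  have hcl : ∀ k : Fin 4, ∑ j ∈ univ.filter (fun j => c j = k), (1 : ℝ) = nc c k := by
    intro k
    unfold nc
    simp
  obtain ⟨z0, hz0⟩ := at_sU (Ir r c) (w_r c) (L_r c)
    (fun i => hZ (ZP P) (h0 (FT P)) i.1.1)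
    (2 * d) C0 (fun i => 1) z1 ((Fintype.card J : ℝ) + e)
    (fun i => by simpa using hW.wj i.1.1) (fun i => by
      unfold w_r wr Pool.Agent.W762.RK2.wc
      split_ifs <;> positivity) (fun i => Ar_orth i.2) (fun U hU => by
      have h1 := comb_m (r := r) (cls := c) (M := fun _ => (1 : ℝ))
        (fun j => zero_le_one) (hcl 0) (hcl 1) (hcl 2) hE.nn hE.h0 hE.h1 hE.h2 hU
      simpa using h1)
  refine ⟨z0, fun z hz hz1 => ?_⟩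
  obtain ⟨C, hC⟩ := hz0 z hz
  refine ⟨C, fun n y hy => ?_⟩
  rw [exp_s c (ZE P) (kE K n) (h0 (FT P)) r z y
    (fun p hp hzp j θ hθ k => kE_nd hK n hp (by omega) j hθ k), hZ_ZE]
  exact le_trans (le_abs_self _)
    (hC (psi c (ZE P) (kE K n)) (fun i p => abs_psi _ _ _ i p) y hy)

/-- the weights exist -/
theorem wtE_of (hs : Sep (FT P)) (hd : 0 < (FT P).natDegree) (h1 : ∀ j, nf (P j) = 1)
    (h2 : nf (FT P) = Fintype.card J) :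
    ∃ (z1 : ℕ) (C0 : ℝ), WtE P (FT P).natDegree z1 C0 := by
  classical
  obtain ⟨c, hc, hMc⟩ := mert_nf _ hs
  obtain ⟨c1, hc1, hM1⟩ := mert_one
  obtain ⟨N, hN, A', B', hAB⟩ := id hs
  obtain ⟨B0, hB0⟩ := Pool.Agent.H474R2.PG.rho_le (FT P) (fun h => by
    rw [h, natDegree_zero] at hd; exact absurd hd (lt_irrefl 0))
  obtain ⟨d, hdd⟩ : ∃ d, d = (FT P).natDegree := ⟨_, rfl⟩
  rw [← hdd] at hB0 hd ⊢
  obtain ⟨z1, hz1⟩ : ∃ z1, z1 = 2 * d + 3 + N.natAbs + B0 := ⟨_, rfl⟩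
  have hPg : Pg (FT P) d z1 := by
    refine ⟨by omega, fun p hp h => hB0 p hp (by omega), fun p hp hz t h1 h2 => ?_⟩
    have h3 := dvd_of_sep hAB h1 h2
    have := Nat.le_of_dvd (Int.natAbs_pos.2 hN) (Int.natCast_dvd.1 h3)
    omega
  obtain ⟨C1, hC1, hW1⟩ := wt_gen (a := fun _ => 1) (M := 1) one_pos hc1 hM1 hPg hd
    (fun p _ _ => hd)
  have hj : ∀ j : J, ∃ C : ℝ, 0 ≤ C ∧ ∀ C', C ≤ C' →
      Wt (hZ (ZP P) (h0 (FT P)) j) (2 * d) C' 1 z1 := by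
    intro j
    have hsj : Sep (P j) := by
      rw [← FT_mul P j] at hs
      exact sep_left hs
    obtain ⟨cj, hcj, hMj⟩ := mert_nf _ hsj
    have hp : 0 < nf (P j) := by rw [h1 j]; exact one_pos
    have e1 : ((nf (P j) : ℕ) : ℝ) = 1 := by rw [h1 j]; exact Nat.cast_one
    have h3 : ∃ C : ℝ, 0 ≤ C ∧ ∀ C', C ≤ C' →
        Wt (hZ (ZP P) (h0 (FT P)) j) (2 * d) C' (nf (P j) : ℝ) z1 :=
      wt_gen hp hcj hMj hPg hd (fun p hp h => ZP_card hPg hp h j)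
    rw [e1] at h3
    exact h3
  choose Cj hCj hWj using hj
  obtain ⟨C0, hC0⟩ : ∃ C0 : ℝ, C0 = C1 + ∑ j, Cj j := ⟨_, rfl⟩
  have hsum : 0 ≤ ∑ j, Cj j := sum_nonneg fun j _ => hCj j
  refine ⟨z1, C0, hPg, hd, ?_, fun j => ?_, ?_⟩
  · have := hW1 C0 (by rw [hC0]; linarith)
    simpa using this
  · refine hWj j C0 ?_
    have := single_le_sum (fun j _ => hCj j) (mem_univ j)
    rw [hC0]
    linarith
  · have := prod_gen hMc hPg (show 3 ≤ z1 by omega)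
    rw [h2] at this
    exact this

lemma WtE.mono {z1 z2 : ℕ} {C0 : ℝ} (h : WtE P d z1 C0) (hz : z1 ≤ z2) : WtE P d z2 C0 where
  pg := Pg.mono h.pg hz
  d1 := h.d1
  w1 := h.w1.mono hz
  wj := fun j => (h.wj j).mono hz
  sv := fun z hz' => h.sv z (hz.trans hz')

end Pool.Agent.U214.SF
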