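import Mathlib
import Pool.Agent.U214.SF.C

/-!
# The uniform moments: assembly
-/

set_option autoImplicit false

namespace Pool.Agent.U214.SF

open Finset Polynomial Pool.Agent.W262.RK Pool.Agent.U214.PT Pool.Agent.U214.GT
open Pool.Agent.U214.UN
open Pool.Agent.W307.RT (S1 S2 Gd LocM)
open Pool.Agent.U409.SH (qq)
open Pool.Agent.H474R2.PG (rho)

variable {J : Type} [Fintype J] [DecidableEq J]
variable {P Kp : J → ℤ[X]} {cl : J → Fin 4} {av bv : ℕ → ℤ → ℤ}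

/-- the local conditions hold for the primes above `z0` -/
structure Fm (P Kp : J → ℤ[X]) (cl : J → Fin 4) (av bv : ℕ → ℤ → ℤ) (z0 : ℕ) : Prop where
  kn : KN P Kp z0
  c3 : ∀ j, cl j ≠ 3
  ne : ∀ n m, ev (FT P) n m ≠ 0 → av n m ≠ 0 ∧ bv n m ≠ 0 ∧ av n m ≠ bv n m
  bad : ∀ n m, ∀ q : ℕ, q.Prime → z0 < q → (q : ℤ) ∣ av n m * bv n m * (av n m - bv n m) →
    (q : ℤ) ∣ ev (FT P) n m
  loc : ∀ n m, ev (FT P) n m ≠ 0 → ∀ p : ℕ, p.Prime → z0 < p → ¬ p ∣ n → ∀ j,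
    (p : ℤ) ∣ ev (P j) n m → ¬ (p : ℤ) ^ 2 ∣ ev (P j) n m →
      LocM (cl j) ((n : ℤ) ^ (Kp j).natDegree * (Kp j).eval ((p ^ 2 + th p n m : ℕ) : ℤ)) p
        (av n m) (bv n m)

lemma cpE_of {z1 : ℕ} (hlc : ∀ p : ℕ, p.Prime → z1 < p → ¬ (p : ℤ) ∣ (FT P).leadingCoeff)
    {n : ℕ} {m : ℤ} (hc : IsCoprime m (n : ℤ)) : CpE P z1 n m := by
  intro p hp hz h hn
  have hpi : Prime (p : ℤ) := Nat.prime_iff_prime_int.1 hp
  have h1 : ev (FT P) n m = ∑ i ∈ range ((FT P).natDegree + 1),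
      (FT P).coeff i * (n : ℤ) ^ ((FT P).natDegree - i) * m ^ i := ev_eq_sum rfl n m
  have hpn : (p : ℤ) ∣ n := Int.natCast_dvd_natCast.2 hn
  rw [h1, sum_range_succ] at h
  have h2 : (p : ℤ) ∣ ∑ i ∈ range (FT P).natDegree,
      (FT P).coeff i * (n : ℤ) ^ ((FT P).natDegree - i) * m ^ i := by
    refine dvd_sum fun i hi => ?_
    rw [mem_range] at hi
    have : (p : ℤ) ∣ (n : ℤ) ^ ((FT P).natDegree - i) := dvd_pow hpn (by omega)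
    exact (this.mul_left _).mul_right _
  have h3 := (dvd_add_right h2).1 h
  rw [Nat.sub_self, pow_zero, mul_one] at h3
  rcases hpi.dvd_or_dvd h3 with h4 | h4
  · exact hlc p hp hz h4
  · have h5 := hpi.dvd_of_dvd_pow h4
    exact hpi.not_isUnit (hc.isUnit_of_dvd' h5 hpn)

/-- the moments away from the zeros, uniformly -/
theorem coreE (hs : Sep (FT P)) (hd : 0 < (FT P).natDegree) (h1 : ∀ j, nf (P j) = 1)
    (h2 : nf (FT P) = Fintype.card J) {zf : ℕ} (hF : Fm P Kp cl av bv zf)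
    {r : ℕ} {e : ℝ} (hE : ExE cl r e) (K : ℕ) :
    ∃ C : ℝ, ∀ X n : ℕ, ∀ u : ℤ, 1 ≤ X → 1 ≤ n → n ≤ X ^ K → u.natAbs ≤ X ^ K →
      ∑ m ∈ Pt (FT P) n u X, (qq (av n m) (bv n m) : ℝ) ^ r ≤
        C * (wd (FT P).natDegree n * X * (1 + Real.log X) ^ e) := by
  classical
  obtain ⟨z0, C0, hW0⟩ := wtE_of hs hd h1 h2
  have hn : FT P ≠ 0 := fun h => by
    rw [h, natDegree_zero] at hd
    exact absurd hd (lt_irrefl 0)
  obtain ⟨z1, hz1⟩ : ∃ z1, z1 = z0 + zf + (FT P).leadingCoeff.natAbs := ⟨_, rfl⟩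
  have hW := WtE.mono hW0 (show z0 ≤ z1 by omega)
  have hlc : ∀ p : ℕ, p.Prime → z1 < p → ¬ (p : ℤ) ∣ (FT P).leadingCoeff := by
    intro p hp hz h
    have h1 := Nat.le_of_dvd (Int.natAbs_pos.2 (leadingCoeff_ne_zero.2 hn)) (Int.natCast_dvd.1 h)
    omega
  have hKn : KN P Kp z1 := fun p hp hz => hF.kn p hp (by omega)
  obtain ⟨L, hL⟩ := ev_bound (FT P)
  obtain ⟨d, hdd⟩ : ∃ d, d = (FT P).natDegree := ⟨_, rfl⟩
  rw [← hdd] at hW hL hd ⊢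
  obtain ⟨R, hR⟩ : ∃ R : ℕ × ℤ → ℝ, R = fun ω : ℕ × ℤ =>
    (qq (av ω.1 ω.2) (bv ω.1 ω.2) : ℝ) ^ r := ⟨_, rfl⟩
  have hR0 : ∀ ω, 0 ≤ R ω := fun ω => by
    rw [hR]
    exact pow_nonneg (Nat.cast_nonneg _) _
  -- the worst case
  obtain ⟨S, hS⟩ : ∃ S : ℕ → ℕ × ℤ → ℝ, S = fun X ω =>
    ∑ m ∈ Pt (FT P) ω.1 ω.2 X, R (ω.1, m) := ⟨_, rfl⟩
  have hwc : ∀ X : ℕ, ∃ ω : ℕ × ℤ, ω.1 ≠ 0 ∧ (1 ≤ X → ω.1 ≤ X ^ K ∧ ω.2.natAbs ≤ X ^ K ∧
      ∀ ω' : ℕ × ℤ, 1 ≤ ω'.1 → ω'.1 ≤ X ^ K → ω'.2.natAbs ≤ X ^ K →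
        S X ω' / wd d ω'.1 ≤ S X ω / wd d ω.1) := by
    intro X
    by_cases hX : 1 ≤ X
    swap
    · exact ⟨(1, 0), one_ne_zero, fun h => absurd h hX⟩
    obtain ⟨F, hF⟩ : ∃ F : Finset (ℕ × ℤ), F = (Icc 1 (X ^ K)) ×ˢ
      (Icc (-((X ^ K : ℕ) : ℤ)) ((X ^ K : ℕ) : ℤ)) := ⟨_, rfl⟩
    have h1K : 1 ≤ X ^ K := Nat.one_le_pow _ _ hX
    have hne : F.Nonempty := by
      refine ⟨(1, 0), ?_⟩
      rw [hF, mem_product, mem_Icc, mem_Icc]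
      refine ⟨⟨le_rfl, h1K⟩, ?_, ?_⟩
      · show -((X ^ K : ℕ) : ℤ) ≤ 0
        omega
      · show (0 : ℤ) ≤ ((X ^ K : ℕ) : ℤ)
        omega
    obtain ⟨ω, hω, hmax⟩ := exists_max_image F (fun ω => S X ω / wd d ω.1) hne
    rw [hF, mem_product, mem_Icc, mem_Icc] at hω
    refine ⟨ω, by omega, fun _ => ⟨hω.1.2, by omega, fun ω' h1 h2 h3 => ?_⟩⟩
    refine hmax ω' ?_
    rw [hF, mem_product, mem_Icc, mem_Icc]
    exact ⟨⟨h1, h2⟩, by omega, by omega⟩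
  choose W hW0 hW1 using hwc
  obtain ⟨T, hT⟩ : ∃ T : ℕ → Finset (ℕ × ℤ), T = fun X => if 1 ≤ X then
    (Pt (FT P) (W X).1 (W X).2 X).image (fun m => ((W X).1, m)) else ∅ := ⟨_, rfl⟩
  have hTm : ∀ X, ∀ ω ∈ T X, 1 ≤ X ∧ ω.1 = (W X).1 ∧ ω.2 ∈ Pt (FT P) (W X).1 (W X).2 X := by
    intro X ω hω
    rw [hT] at hω
    simp only at hω
    split_ifs at hω with h1
    · obtain ⟨m, hm, rfl⟩ := mem_image.1 hω
      exact ⟨h1, rfl, hm⟩
    · simp at hω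
  have hPt : ∀ X, ∀ ω ∈ T X, IsCoprime ω.2 (ω.1 : ℤ) ∧ ev (FT P) ω.1 ω.2 ≠ 0 ∧
      (W X).2 + 1 ≤ ω.2 ∧ ω.2 ≤ (W X).2 + X := by
    intro X ω hω
    obtain ⟨_, h1, h2⟩ := hTm X ω hω
    unfold Pt at h2
    rw [mem_filter, mem_Ioc] at h2
    rw [h1]
    exact ⟨h2.2.1, h2.2.2, by omega, h2.1.2⟩
  obtain ⟨e0, he0⟩ : ∃ e0, e0 = (K + 2) * d + 1 := ⟨_, rfl⟩
  obtain ⟨C, hC⟩ := sum_RE (E := ((4 : ℝ) ^ e0) ^ r) hW hE hKn hlc (by rw [hdd])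
    (one_le_pow₀ (one_le_pow₀ (by norm_num))) (fun X => (W X).1) hW0 (fun X => (W X).2) T
    (fun X ω hω => ⟨(hTm X ω hω).2.1, (hPt X ω hω).2.2⟩)
    (fun X ω hω => (hPt X ω hω).2.1) (fun X ω hω => cpE_of hlc (hPt X ω hω).1) R hR0 (z2 := z1)
    (y2 := L + 2) (fun z hz => by
      refine ⟨((4 : ℝ) ^ (z + 2)) ^ r, by positivity, fun X y k ω hω hy2y hyX hk => ?_⟩
      obtain ⟨hX1, hω1, -⟩ := hTm X ω hω
      obtain ⟨hcop, h0, hlo, hhi⟩ := hPt X ω hω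
      obtain ⟨hnK, huK, -⟩ := hW1 X hX1
      have hX2 : 2 ≤ X := by omega
      have hpow : X ^ K + X ≤ X ^ (K + 2) := by
        have h1K : 1 ≤ X ^ K := Nat.one_le_pow _ _ hX1
        calc X ^ K + X ≤ X ^ K * X + X ^ K * X := by nlinarith
          _ = X ^ K * X * 2 := by ring
          _ ≤ X ^ K * X * X := Nat.mul_le_mul_left _ hX2
          _ = X ^ (K + 2) := by ring
      have hFb : (ev (FT P) ω.1 ω.2).natAbs ≤ X ^ e0 := by
        have h1 := hL ω.1 ω.2 (X ^ (K + 2)) (Nat.one_le_pow _ _ hX1)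
          (by rw [hω1]; omega) (by omega)
        refine h1.trans ?_
        calc L * (X ^ (K + 2)) ^ d ≤ X * (X ^ (K + 2)) ^ d := Nat.mul_le_mul_right _ (by omega)
          _ = X ^ e0 := by
              rw [he0]
              ring
      obtain ⟨g1, g2, g3⟩ := hF.ne ω.1 ω.2 h0
      have h6 := rankE (c := cl) (K := Kp) hF.c3 (fun p hp hz' => hKn p hp (by omega))
        (Pg.mono hW.pg hz) (fun p hp hzp => cpE_of hlc hcop p hp (by omega))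
        h0 hFb (by omega) (by omega : 1 ≤ y) hk g1 g2 g3
        (fun q hq hzq => hF.bad ω.1 ω.2 q hq (by omega))
        (fun p hp hzp => hF.loc ω.1 ω.2 h0 p hp (by omega))
      rw [hR]
      simp only
      refine (pow_le_pow_left₀ (Nat.cast_nonneg _) h6 r).trans (le_of_eq ?_)
      rw [mul_pow, mul_pow, mul_pow, pow_right_comm _ k r,
        pow_right_comm _ (t2 z y (ev (FT P) ω.1 ω.2)).primeFactors.card r])
  refine ⟨C, fun X n u hX hn1 hnK huK => ?_⟩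
  have h1 := hC X hX
  obtain ⟨-, -, hmax⟩ := hW1 X hX
  have h2 := hmax (n, u) hn1 hnK huK
  have h3 : ∑ ω ∈ T X, R ω = S X (W X) := by
    rw [hT, hS]
    simp only
    rw [if_pos hX, sum_image]
    intro a _ b _ hab
    exact (Prod.ext_iff.1 hab).2
  rw [h3] at h1
  have hw1 := one_le_wd d (W X).1
  have hw2 := one_le_wd d n
  have h4 : S X (W X) / wd d (W X).1 ≤ C * (X * (1 + Real.log X) ^ e) := by
    rw [div_le_iff₀ (by linarith)]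
    refine h1.trans (le_of_eq ?_)
    ring
  have h5 := h2.trans h4
  rw [div_le_iff₀ (by linarith)] at h5
  have h6 : S X (n, u) = ∑ m ∈ Pt (FT P) n u X, (qq (av n m) (bv n m) : ℝ) ^ r := by
    rw [hS, hR]
  rw [← h6]
  refine h5.trans (le_of_eq ?_)
  ring

/-- **the moments over the boxes** -/
theorem boxE (hs : Sep (FT P)) (hd : 0 < (FT P).natDegree) (h1 : ∀ j, nf (P j) = 1)
    (h2 : nf (FT P) = Fintype.card J) {zf : ℕ} (hF : Fm P Kp cl av bv zf)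
    {r : ℕ} {e : ℝ} (hE : ExE cl r e) (K : ℕ) :
    ∃ C : ℝ, ∀ X Y v : ℕ, ∀ u : ℤ, 1 ≤ X → 1 ≤ Y → v + Y ≤ X ^ K → v + Y ≤ Y ^ K →
      u.natAbs ≤ X ^ K →
      ∑ w ∈ ((Ioc u (u + X)) ×ˢ (Ioc v (v + Y))).filter (fun w : ℤ × ℕ =>
        IsCoprime w.1 (w.2 : ℤ) ∧ ev (FT P) w.2 w.1 ≠ 0),
        (qq (av w.2 w.1) (bv w.2 w.1) : ℝ) ^ r ≤
        C * (X * Y * (1 + Real.log X) ^ e) := by
  classical
  obtain ⟨C, hC⟩ := coreE hs hd h1 h2 hF hE K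
  obtain ⟨C', hC'0, hC'⟩ := sum_wd (FT P).natDegree K
  refine ⟨|C| * C', fun X Y v u hX hY hVX hVY hu => ?_⟩
  have hXr : (1 : ℝ) ≤ X := by exact_mod_cast hX
  have hE' : 0 ≤ (1 + Real.log X) ^ e :=
    Real.rpow_nonneg (by have := Real.log_nonneg hXr; linarith) _
  have hw0 : ∀ n, 0 ≤ wd (FT P).natDegree n := fun n => zero_le_one.trans (one_le_wd _ _)
  calc _ = ∑ n ∈ Ioc v (v + Y), ∑ m ∈ Pt (FT P) n u X, (qq (av n m) (bv n m) : ℝ) ^ r := by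
        rw [sum_filter, sum_product_right]
        refine sum_congr rfl fun n _ => ?_
        unfold Pt
        rw [sum_filter]
    _ ≤ ∑ n ∈ Ioc v (v + Y), |C| * (wd (FT P).natDegree n * X * (1 + Real.log X) ^ e) := by
        refine sum_le_sum fun n hn => ?_
        rw [mem_Ioc] at hn
        refine (hC X n u hX (by omega) (by omega) hu).trans ?_
        apply mul_le_mul_of_nonneg_right (le_abs_self C)
        exact mul_nonneg (mul_nonneg (hw0 n) (by linarith)) hE'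
    _ = |C| * (∑ n ∈ Ioc v (v + Y), wd (FT P).natDegree n) * (X * (1 + Real.log X) ^ e) := by
        rw [← mul_sum, ← sum_mul, ← sum_mul]
        ring
    _ ≤ |C| * (C' * Y) * (X * (1 + Real.log X) ^ e) := by
        apply mul_le_mul_of_nonneg_right _ (mul_nonneg (by linarith) hE')
        exact mul_le_mul_of_nonneg_left (hC' v Y hY (by omega)) (abs_nonneg _)
    _ = _ := by ring

end Pool.Agent.U214.SF
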