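import Mathlib
import Pool.Agent.U214.SF.D

/-!
# Semistable families with arbitrary irreducible factors and multiplicities
-/

set_option autoImplicit false

namespace Pool.Agent.U214.SF

open Finset Polynomial Pool.Agent.W262.RK Pool.Agent.U214.PT Pool.Agent.U214.GT
open Pool.Agent.U214.UN
open Pool.Agent.W307.RT (LocM)
open Pool.Agent.U409.SH (qq)

variable {J : Type} [Fintype J] [DecidableEq J]

/-- `F over the rationals` -/
noncomputable def qm (F : ℤ[X]) : ℚ[X] := F.map (Int.castRingHom ℚ)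

/-- the polynomial `F k` -/
noncomputable def FF (c : J → Fin 3) (a : Fin 3 → ℤ) (μ : J → ℕ) (P : J → ℤ[X]) (k : Fin 3) :
    ℤ[X] := C (a k) * ∏ j ∈ univ.filter (fun j => c j = k), P j ^ μ j

/-- the polynomial that decides whether the fibres over the zeros of `P j` are split -/
noncomputable def GG (c : J → Fin 3) (a : Fin 3 → ℤ) (μ : J → ℕ) (P : J → ℤ[X]) (j : J) : ℤ[X] :=
  if c j = 0 then -FF c a μ P 1 else if c j = 1 then -FF c a μ P 0 else FF c a μ P 0

variable {c : J → Fin 3} {a : Fin 3 → ℤ} {μ : J → ℕ} {P : J → ℤ[X]} {n : ℕ} {m : ℤ} {d z : ℕ}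

lemma ev_prodJ (s : Finset J) (f : J → ℤ[X]) (n : ℕ) (m : ℤ) :
    ev (∏ j ∈ s, f j) n m = ∏ j ∈ s, ev (f j) n m := by
  induction s using Finset.induction_on with
  | empty => rw [prod_empty, prod_empty, ← C_1, ev_C]
  | insert i s hi ih => rw [prod_insert hi, prod_insert hi, ev_mul, ih]

lemma ev_FF (k : Fin 3) (n : ℕ) (m : ℤ) :
    ev (FF c a μ P k) n m = a k * ∏ j ∈ univ.filter (fun j => c j = k), ev (P j) n m ^ μ j := by
  unfold FF
  rw [ev_mul, ev_C, ev_prodJ]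
  simp only [ev_pow]

lemma eval_FF (k : Fin 3) (t : ℤ) :
    (FF c a μ P k).eval t = a k * ∏ j ∈ univ.filter (fun j => c j = k), (P j).eval t ^ μ j := by
  unfold FF
  rw [eval_mul, eval_C, eval_prod]
  simp only [eval_pow]

lemma f3 (k : Fin 3) : k = 0 ∨ k = 1 ∨ k = 2 := by
  fin_cases k
  · exact Or.inl rfl
  · exact Or.inr (Or.inl rfl)
  · exact Or.inr (Or.inr rfl)

lemma clr {F G : ℤ[X]} {S : ℚ[X]} (h : qm F ∣ qm G - S ^ 2) :
    ∃ (s u : ℤ) (S0 U0 : ℤ[X]), s ≠ 0 ∧ u ≠ 0 ∧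
      C (s ^ 2 * u) * G = C u * S0 ^ 2 + F * U0 := by
  obtain ⟨U, hU⟩ := h
  obtain ⟨s, S0, hs, hS0⟩ := clear S
  obtain ⟨u, U0, hu, hU0⟩ := clear U
  refine ⟨s, u, S0, C (s ^ 2) * U0, hs, hu, ?_⟩
  apply map_injective (Int.castRingHom ℚ) Int.cast_injective
  unfold qm at hU
  simp only [Polynomial.map_add, Polynomial.map_mul, Polynomial.map_pow, Polynomial.map_C,
    Int.coe_castRingHom, hS0, hU0, Int.cast_mul, Int.cast_pow, C_mul, C_pow]
  linear_combination (C (s : ℚ) ^ 2 * C (u : ℚ)) * hU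

lemma jac_spl {F G S0 U0 : ℤ[X]} {s u : ℤ} (he : C (s ^ 2 * u) * G = C u * S0 ^ 2 + F * U0)
    {p : ℕ} (hp : p.Prime) (hs : ¬ (p : ℤ) ∣ s) (hu : ¬ (p : ℤ) ∣ u) {t : ℤ}
    (hF : (p : ℤ) ∣ F.eval t) (hG : ¬ (p : ℤ) ∣ G.eval t) : jacobiSym (G.eval t) p = 1 := by
  haveI : Fact p.Prime := ⟨hp⟩
  have hpi : Prime (p : ℤ) := Nat.prime_iff_prime_int.1 hp
  have h1 := congrArg (fun f => f.eval t) he
  simp only [eval_mul, eval_add, eval_C, eval_pow] at h1
  have h2 : (p : ℤ) ∣ u * (s ^ 2 * G.eval t - (S0.eval t) ^ 2) := by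
    have : u * (s ^ 2 * G.eval t - (S0.eval t) ^ 2) = F.eval t * U0.eval t := by
      linear_combination h1
    rw [this]
    exact hF.mul_right _
  have h3 := (hpi.dvd_or_dvd h2).resolve_left hu
  have hsq1 : ∀ x : ℤ, ¬ (p : ℤ) ∣ x → jacobiSym (x ^ 2) p = 1 := by
    intro x hx
    apply jacobiSym.sq_one'
    rw [← Int.isCoprime_iff_gcd_eq_one]
    exact ((Prime.coprime_iff_not_dvd hpi).2 hx).symm
  have h4 := jac_cong h3
  rw [jacobiSym.mul_left, hsq1 s hs, one_mul] at h4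
  rw [h4]
  apply hsq1
  intro h5
  have h6 : (p : ℤ) ∣ s ^ 2 * G.eval t := by
    have := dvd_add h3 (h5.mul_left (S0.eval t))
    rw [← sq, sub_add_cancel] at this
    exact this
  rcases hpi.dvd_or_dvd h6 with h7 | h7
  · exact hs (hpi.dvd_of_dvd_pow h7)
  · exact hG h7

section loc

variable (hf : Pg (FT P) d z) (hμ : ∀ j, 1 ≤ μ j) (ha : ∀ k, a k ≠ 0)
  (haz : ∀ p : ℕ, p.Prime → z < p → ∀ k, ¬ (p : ℤ) ∣ a k)

include hf haz in
lemma nd_FF {p : ℕ} (hp : p.Prime) (hz : z < p) {t : ℤ} {j : J} (hj : (p : ℤ) ∣ (P j).eval t)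
    {k : Fin 3} (hk : k ≠ c j) : ¬ (p : ℤ) ∣ (FF c a μ P k).eval t := by
  have hpi : Prime (p : ℤ) := Nat.prime_iff_prime_int.1 hp
  intro h
  rw [eval_FF] at h
  rcases hpi.dvd_or_dvd h with h1 | h1
  · exact haz p hp hz k h1
  · obtain ⟨l, hl, h2⟩ := (hpi.dvd_finsetProd_iff _).1 h1
    rw [mem_filter] at hl
    have hjl : j ≠ l := by
      rintro rfl
      exact hk hl.2.symm
    have h3 := hpi.dvd_of_dvd_pow h2
    refine q_nE hf hp hz j hj ?_
    obtain ⟨q, hq⟩ := QP_dvd P hjl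
    rw [hq, eval_mul]
    exact h3.mul_right _

include hf haz in
lemma nd_ev {p : ℕ} (hp : p.Prime) (hz : z < p) (hn : ¬ p ∣ n) {j : J}
    (hj : (p : ℤ) ∣ ev (P j) n m) {k : Fin 3} (hk : k ≠ c j) :
    ¬ (p : ℤ) ∣ ev (FF c a μ P k) n m := by
  rw [dvd_ev hp hn]
  exact nd_FF hf haz hp hz ((dvd_ev hp hn _ _).1 hj) hk

include hf haz in
lemma odd_val {p : ℕ} (hp : p.Prime) (hz : z < p) (hn : ¬ p ∣ n) {j : J}
    (hj : (p : ℤ) ∣ ev (P j) n m) (hj2 : ¬ (p : ℤ) ^ 2 ∣ ev (P j) n m) :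
    padicValInt p (ev (FF c a μ P (c j)) n m) = μ j := by
  haveI : Fact p.Prime := ⟨hp⟩
  have hpi : Prime (p : ℤ) := Nat.prime_iff_prime_int.1 hp
  obtain ⟨w, hw⟩ := hj
  have hw' : ¬ (p : ℤ) ∣ w := by
    intro h
    apply hj2
    rw [hw, sq]
    exact mul_dvd_mul_left _ h
  obtain ⟨r, hr⟩ : ∃ r, r = a (c j) *
    ∏ l ∈ (univ.filter (fun l => c l = c j)).erase j, ev (P l) n m ^ μ l := ⟨_, rfl⟩
  have hrn : ¬ (p : ℤ) ∣ r := by
    intro h
    rw [hr] at h
    rcases hpi.dvd_or_dvd h with h1 | h1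
    · exact haz p hp hz _ h1
    · obtain ⟨l, hl, h2⟩ := (hpi.dvd_finsetProd_iff _).1 h1
      rw [mem_erase] at hl
      have h3 := hpi.dvd_of_dvd_pow h2
      refine q_nE hf hp hz j ((dvd_ev hp hn _ _).1 (by rw [hw]; exact Dvd.intro _ rfl)) ?_
      obtain ⟨q, hq⟩ := QP_dvd P hl.1.symm
      rw [hq, eval_mul]
      exact ((dvd_ev hp hn _ _).1 h3).mul_right _
  have hx : ev (FF c a μ P (c j)) n m = (p : ℤ) ^ μ j * (w ^ μ j * r) := by
    have e := mul_prod_erase (univ.filter (fun l => c l = c j)) (fun l => ev (P l) n m ^ μ l)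
      (mem_filter.2 ⟨mem_univ j, rfl⟩)
    rw [ev_FF, ← e, hw, hr]
    ring
  have hwr : ¬ (p : ℤ) ∣ w ^ μ j * r := by
    intro h
    rcases hpi.dvd_or_dvd h with h1 | h1
    · exact hw' (hpi.dvd_of_dvd_pow h1)
    · exact hrn h1
  have hx0 : ev (FF c a μ P (c j)) n m ≠ 0 := by
    rw [hx]
    refine mul_ne_zero (pow_ne_zero _ hpi.ne_zero) fun h => hwr ?_
    rw [h]
    exact dvd_zero _
  apply le_antisymm
  · by_contra hcon
    have h1 := (padicValInt_dvd_iff (p := p) (μ j + 1) (ev (FF c a μ P (c j)) n m)).2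
      (Or.inr (by omega))
    rw [hx, pow_succ] at h1
    exact hwr ((mul_dvd_mul_iff_left (pow_ne_zero _ hpi.ne_zero)).1 h1)
  · have h1 := (padicValInt_dvd_iff (p := p) (μ j) (ev (FF c a μ P (c j)) n m)).1
      (by rw [hx]; exact Dvd.intro _ rfl)
    exact h1.resolve_left hx0

end loc

/-- **the local data of the family** -/
theorem fm_of (hf : Pg (FT P) d z) (hμ : ∀ j, 1 ≤ μ j) (ha : ∀ k, a k ≠ 0)
    (hid : FF c a μ P 0 - FF c a μ P 1 = FF c a μ P 2)
    (h1 : (FF c a μ P 1).natDegree = (FF c a μ P 0).natDegree)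
    (h2 : (FF c a μ P 2).natDegree = (FF c a μ P 0).natDegree)
    (hsp : ∀ j, Odd (μ j) ∨ (Even (FF c a μ P 0).natDegree ∧
      ∃ S : ℚ[X], qm (P j) ∣ qm (GG c a μ P j) - S ^ 2)) :
    ∃ z0, Fm P (GG c a μ P) (fun j => (c j).castSucc) (fun n m => ev (FF c a μ P 0) n m)
      (fun n m => ev (FF c a μ P 1) n m) z0 := by
  classical
  -- the constants
  have hex : ∀ j, ∃ w : ℤ, w ≠ 0 ∧ ∀ p : ℕ, p.Prime → ¬ (p : ℤ) ∣ w → Odd (μ j) ∨
      (Even (FF c a μ P 0).natDegree ∧ ∀ t : ℤ, (p : ℤ) ∣ (P j).eval t →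
        ¬ (p : ℤ) ∣ (GG c a μ P j).eval t → jacobiSym ((GG c a μ P j).eval t) p = 1) := by
    intro j
    rcases hsp j with h | ⟨h, S, hS⟩
    · exact ⟨1, one_ne_zero, fun p _ _ => Or.inl h⟩
    · obtain ⟨s, u, S0, U0, hs, hu, he⟩ := clr hS
      refine ⟨s * u, mul_ne_zero hs hu, fun p hp hpd => Or.inr ⟨h, fun t h3 h4 => ?_⟩⟩
      exact jac_spl he hp (fun h => hpd (h.mul_right _)) (fun h => hpd (h.mul_left _)) h3 h4
  choose w hw0 hw using hex
  obtain ⟨z0, hz0⟩ : ∃ z0, z0 = z + ∑ k, (a k).natAbs + ∑ j, (w j).natAbs + 2 := ⟨_, rfl⟩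
  have hfz : Pg (FT P) d z0 := Pg.mono hf (by omega)
  have haz : ∀ p : ℕ, p.Prime → z0 < p → ∀ k, ¬ (p : ℤ) ∣ a k := by
    intro p hp hzp k h
    have g1 := Nat.le_of_dvd (Int.natAbs_pos.2 (ha k)) (Int.natCast_dvd.1 h)
    have g2 := single_le_sum (f := fun k => (a k).natAbs) (fun _ _ => Nat.zero_le _) (mem_univ k)
    omega
  have hwz : ∀ p : ℕ, p.Prime → z0 < p → ∀ j, ¬ (p : ℤ) ∣ w j := by
    intro p hp hzp j h
    have g1 := Nat.le_of_dvd (Int.natAbs_pos.2 (hw0 j)) (Int.natCast_dvd.1 h)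
    have g2 := single_le_sum (f := fun j => (w j).natAbs) (fun _ _ => Nat.zero_le _) (mem_univ j)
    omega
  have hsub : ∀ n m, ev (FF c a μ P 0) n m - ev (FF c a μ P 1) n m = ev (FF c a μ P 2) n m := by
    intro n m
    rw [← (adT_deg h1 (by rw [hid]; exact h2) n).sub m, hid]
  have hne : ∀ n m, ev (FT P) n m ≠ 0 → ∀ k, ev (FF c a μ P k) n m ≠ 0 := by
    intro n m h0 k
    rw [ev_FF]
    exact mul_ne_zero (ha k) (prod_ne_zero_iff.2 fun j _ => pow_ne_zero _ (P_neE h0 j))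
  have hGd : ∀ j, (GG c a μ P j).natDegree = (FF c a μ P 0).natDegree := by
    intro j
    unfold GG
    split_ifs
    · rw [natDegree_neg, h1]
    · rw [natDegree_neg]
    · rfl
  have hKN : KN P (GG c a μ P) z0 := by
    intro p hp hzp j t hj
    unfold GG
    split_ifs with g0 g1
    · rw [eval_neg, dvd_neg]
      exact nd_FF hfz haz hp hzp hj (by rw [g0]; decide)
    · rw [eval_neg, dvd_neg]
      exact nd_FF hfz haz hp hzp hj (by rw [g1]; decide)
    · refine nd_FF hfz haz hp hzp hj ?_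
      intro h
      exact g0 h.symm
  refine ⟨z0, hKN, fun j => ?_, fun n m h0 => ⟨hne n m h0 0, hne n m h0 1, fun h => ?_⟩,
    fun n m q hq hzq hd => ?_, fun n m h0 p hp hzp hn j hj hj2 => ?_⟩
  · rcases f3 (c j) with h | h | h <;> rw [h] <;> decide
  · apply hne n m h0 2
    rw [← hsub, h, sub_self]
  · have hqi : Prime (q : ℤ) := Nat.prime_iff_prime_int.1 hq
    have key : ∀ k, (q : ℤ) ∣ ev (FF c a μ P k) n m → (q : ℤ) ∣ ev (FT P) n m := by
      intro k h
      rw [ev_FF] at h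
      rcases hqi.dvd_or_dvd h with g | g
      · exact absurd g (haz q hq hzq k)
      · obtain ⟨l, hl, g2⟩ := (hqi.dvd_finsetProd_iff _).1 g
        rw [FT_ev P n m l]
        exact (hqi.dvd_of_dvd_pow g2).mul_right _
    rw [hsub] at hd
    rcases hqi.dvd_or_dvd hd with g | g
    · rcases hqi.dvd_or_dvd g with g' | g'
      · exact key 0 g'
      · exact key 1 g'
    · exact key 2 g
  · haveI : Fact p.Prime := ⟨hp⟩
    have hpi : Prime (p : ℤ) := Nat.prime_iff_prime_int.1 hp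
    have hsq1 : ∀ x : ℤ, ¬ (p : ℤ) ∣ x → jacobiSym (x ^ 2) p = 1 := by
      intro x hx
      apply jacobiSym.sq_one'
      rw [← Int.isCoprime_iff_gcd_eq_one]
      exact ((Prime.coprime_iff_not_dvd hpi).2 hx).symm
    have hval := odd_val (c := c) (a := a) (μ := μ) hfz haz hp hzp hn hj hj2
    have hnd : ∀ {k : Fin 3}, k ≠ c j → ¬ (p : ℤ) ∣ ev (FF c a μ P k) n m :=
      fun hk => nd_ev hfz haz hp hzp hn hj hk
    have hdvd : (p : ℤ) ∣ ev (FF c a μ P (c j)) n m := by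
      rw [ev_FF]
      refine dvd_mul_of_dvd_right ?_ _
      refine dvd_trans ?_ (dvd_prod_of_mem _ (mem_filter.2 ⟨mem_univ j, rfl⟩))
      exact dvd_pow hj (by have := hμ j; omega)
    -- the character
    have hκ : ∀ x : ℤ, jacobiSym ((n : ℤ) ^ (GG c a μ P j).natDegree *
        (GG c a μ P j).eval ((p ^ 2 + th p n m : ℕ) : ℤ) * x) p =
        jacobiSym (ev (GG c a μ P j) n m * x) p := fun x => jac_evT hp hn _ m x
    have hpar : Odd (μ j) ∨ jacobiSym ((n : ℤ) ^ (GG c a μ P j).natDegree *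
        (GG c a μ P j).eval ((p ^ 2 + th p n m : ℕ) : ℤ)) p = 1 := by
      rcases hw j p hp (hwz p hp hzp j) with g | ⟨g1, g2⟩
      · exact Or.inl g
      · right
        have hPθ : (p : ℤ) ∣ (P j).eval ((p ^ 2 + th p n m : ℕ) : ℤ) := by
          have e1 := eval_mark (P j) p (th p n m)
          have e2 := dvd_add e1 ((dvd_ev hp hn _ _).1 hj)
          rwa [sub_add_cancel] at e2
        have e3 := g2 _ hPθ (hKN p hp hzp j _ hPθ)
        obtain ⟨k, hk⟩ := g1
        rw [jacobiSym.mul_left, e3, mul_one, hGd j, hk, show (n : ℤ) ^ (k + k) = ((n : ℤ) ^ k) ^ 2 by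
          rw [← pow_mul]; congr 1; omega]
        apply hsq1
        intro h
        exact hn (Int.natCast_dvd_natCast.1 (hpi.dvd_of_dvd_pow h))
    rcases f3 (c j) with h | h | h
    · have e0 : (c j).castSucc = (0 : Fin 4) := by rw [h]; rfl
      rw [h] at hval hdvd
      have hb := hnd (k := 1) (by rw [h]; decide)
      rw [e0]
      unfold LocM
      rw [if_pos rfl]
      refine ⟨hdvd, hb, ?_, ?_⟩
      · rw [hκ]
        have : ev (GG c a μ P j) n m = -ev (FF c a μ P 1) n m := by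
          unfold GG
          rw [if_pos h, ev_neg]
        rw [this, show -ev (FF c a μ P 1) n m * -ev (FF c a μ P 1) n m =
          (ev (FF c a μ P 1) n m) ^ 2 by ring]
        exact hsq1 _ hb
      · rw [hval]
        exact hpar
    · have e0 : (c j).castSucc = (1 : Fin 4) := by rw [h]; rfl
      rw [h] at hval hdvd
      have hb := hnd (k := 0) (by rw [h]; decide)
      rw [e0]
      unfold LocM
      rw [if_neg (by decide), if_pos rfl]
      refine ⟨hdvd, hb, ?_, ?_⟩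
      · rw [hκ]
        have : ev (GG c a μ P j) n m = -ev (FF c a μ P 0) n m := by
          unfold GG
          rw [if_neg (by rw [h]; decide), if_pos h, ev_neg]
        rw [this, show -ev (FF c a μ P 0) n m * -ev (FF c a μ P 0) n m =
          (ev (FF c a μ P 0) n m) ^ 2 by ring]
        exact hsq1 _ hb
      · rw [hval]
        exact hpar
    · have e0 : (c j).castSucc = (2 : Fin 4) := by rw [h]; rfl
      rw [h] at hval hdvd
      have hb := hnd (k := 0) (by rw [h]; decide)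
      rw [e0]
      unfold LocM
      rw [if_neg (by decide), if_neg (by decide), hsub]
      refine ⟨hdvd, hb, ?_, ?_⟩
      · rw [hκ]
        have : ev (GG c a μ P j) n m = ev (FF c a μ P 0) n m := by
          unfold GG
          rw [if_neg (by rw [h]; decide), if_neg (by rw [h]; decide)]
        rw [this, show ev (FF c a μ P 0) n m * ev (FF c a μ P 0) n m =
          (ev (FF c a μ P 0) n m) ^ 2 by ring]
        exact hsq1 _ hb
      · rw [hval]
        exact hpar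

/-- **all moments over the boxes** -/
theorem famE [Nonempty J] (hμ : ∀ j, 1 ≤ μ j) (ha : ∀ k, a k ≠ 0)
    (hirr : ∀ j, Irreducible (qm (P j)))
    (hna : ∀ i j, i ≠ j → ¬ Associated (qm (P i)) (qm (P j)))
    (hid : FF c a μ P 0 - FF c a μ P 1 = FF c a μ P 2)
    (h1 : (FF c a μ P 1).natDegree = (FF c a μ P 0).natDegree)
    (h2 : (FF c a μ P 2).natDegree = (FF c a μ P 0).natDegree)
    (hsp : ∀ j, Odd (μ j) ∨ (Even (FF c a μ P 0).natDegree ∧
      ∃ S : ℚ[X], qm (P j) ∣ qm (GG c a μ P j) - S ^ 2))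
    {r : ℕ} {e : ℝ} (he : 0 ≤ e)
    (e0 : ((2 : ℝ) ^ r - 1) * (((univ.filter (fun j => c j = 0)).card : ℝ) -
      (((univ.filter (fun j => c j = 1)).card : ℝ) + (univ.filter (fun j => c j = 2)).card) /
        2 ^ r) ≤ e)
    (e1 : ((2 : ℝ) ^ r - 1) * (((univ.filter (fun j => c j = 1)).card : ℝ) -
      (((univ.filter (fun j => c j = 0)).card : ℝ) + (univ.filter (fun j => c j = 2)).card) /
        2 ^ r) ≤ e)
    (e2 : ((2 : ℝ) ^ r - 1) * (((univ.filter (fun j => c j = 2)).card : ℝ) -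
      (((univ.filter (fun j => c j = 0)).card : ℝ) + (univ.filter (fun j => c j = 1)).card) /
        2 ^ r) ≤ e) (K : ℕ) :
    ∃ C : ℝ, ∀ X Y v : ℕ, ∀ u : ℤ, 1 ≤ X → 1 ≤ Y → v + Y ≤ X ^ K → v + Y ≤ Y ^ K →
      u.natAbs ≤ X ^ K →
      ∑ w ∈ ((Ioc u (u + X)) ×ˢ (Ioc v (v + Y))).filter (fun w : ℤ × ℕ =>
        IsCoprime w.1 (w.2 : ℤ) ∧ ev (FT P) w.2 w.1 ≠ 0),
        (qq (ev (FF c a μ P 0) w.2 w.1) (ev (FF c a μ P 1) w.2 w.1) : ℝ) ^ r ≤
        C * (X * Y * (1 + Real.log X) ^ e) := by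
  classical
  have hP0 : ∀ j, P j ≠ 0 := by
    intro j h
    apply (hirr j).ne_zero
    unfold qm
    rw [h, Polynomial.map_zero]
  have hnf : ∀ j, nf (P j) = 1 := by
    intro j
    unfold nf
    have := hirr j
    unfold qm at this
    rw [UniqueFactorizationMonoid.normalizedFactors_irreducible this, Multiset.card_singleton]
  have hprod : ∀ s : Finset J, nf (∏ j ∈ s, P j) = s.card := by
    intro s
    induction s using Finset.induction_on with
    | empty =>
      rw [prod_empty, card_empty, ← C_1, nf_const one_ne_zero]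
    | insert i s hi ih =>
      rw [prod_insert hi, card_insert_of_notMem hi, nf_mul (hP0 i)
        (prod_ne_zero_iff.2 fun j _ => hP0 j), hnf, ih, add_comm]
  have hnfF : nf (FT P) = Fintype.card J := by
    unfold FT
    rw [hprod, card_univ]
  have hsq : Squarefree ((FT P).map (Int.castRingHom ℚ)) := by
    unfold FT
    rw [Polynomial.map_prod]
    refine Finset.squarefree_prod_of_pairwise_isCoprime (fun i _ j _ hij => ?_)
      (fun i _ => (hirr i).squarefree)
    show IsRelPrime ((P i).map (Int.castRingHom ℚ)) ((P j).map (Int.castRingHom ℚ))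
    have hi : Irreducible ((P i).map (Int.castRingHom ℚ)) := hirr i
    have hj : Irreducible ((P j).map (Int.castRingHom ℚ)) := hirr j
    rw [hi.isRelPrime_iff_not_dvd]
    intro h
    exact hna i j hij (hi.associated_of_dvd hj h)
  have hs : Sep (FT P) := sep_of_sqf hsq
  have hF0 : FT P ≠ 0 := by
    unfold FT
    exact prod_ne_zero_iff.2 fun j _ => hP0 j
  have hd : 0 < (FT P).natDegree := by
    obtain ⟨j⟩ := ‹Nonempty J›
    have g1 : 0 < (P j).natDegree := by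
      have := (hirr j).natDegree_pos
      unfold qm at this
      rwa [natDegree_map_eq_of_injective (RingHom.injective_int _)] at this
    rw [← FT_mul P j] at hF0 ⊢
    rw [natDegree_mul (left_ne_zero_of_mul hF0) (right_ne_zero_of_mul hF0)]
    omega
  obtain ⟨z1, C0, hW⟩ := wtE_of hs hd hnf hnfF
  obtain ⟨z0, hFm⟩ := fm_of (c := c) (a := a) (μ := μ) hW.pg hμ ha hid h1 h2 hsp
  have hnc : ∀ k : Fin 3, nc (fun j => (c j).castSucc) k.castSucc =
      (univ.filter (fun j => c j = k)).card := by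
    intro k
    unfold nc
    congr 1
    ext j
    simp
  have n0 := hnc 0
  have n1 := hnc 1
  have n2 := hnc 2
  have hE : ExE (fun j => (c j).castSucc) r e := by
    refine ⟨he, ?_, ?_, ?_⟩
    · change ((2 : ℝ) ^ r - 1) * ((nc (fun j => (c j).castSucc) (0 : Fin 3).castSucc : ℝ) -
        ((nc (fun j => (c j).castSucc) (1 : Fin 3).castSucc : ℝ) +
          nc (fun j => (c j).castSucc) (2 : Fin 3).castSucc) / 2 ^ r) ≤ e
      rw [n0, n1, n2]
      exact e0
    · change ((2 : ℝ) ^ r - 1) * ((nc (fun j => (c j).castSucc) (1 : Fin 3).castSucc : ℝ) -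
        ((nc (fun j => (c j).castSucc) (0 : Fin 3).castSucc : ℝ) +
          nc (fun j => (c j).castSucc) (2 : Fin 3).castSucc) / 2 ^ r) ≤ e
      rw [n0, n1, n2]
      exact e1
    · change ((2 : ℝ) ^ r - 1) * ((nc (fun j => (c j).castSucc) (2 : Fin 3).castSucc : ℝ) -
        ((nc (fun j => (c j).castSucc) (0 : Fin 3).castSucc : ℝ) +
          nc (fun j => (c j).castSucc) (1 : Fin 3).castSucc) / 2 ^ r) ≤ e
      rw [n0, n1, n2]
      exact e2
  exact boxE hs hd hnf hnfF hFm hE K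

end Pool.Agent.U214.SF
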