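import Mathlib
import Pool.Agent.U214.SF.E

/-!
# The family of the curves with torsion `Z/2 x Z/8`
-/

set_option autoImplicit false

namespace Pool.Agent.U214.SF

open Finset Polynomial Pool.Agent.U214.UN

/-- the linear polynomial -/
noncomputable def ln (a b : ℤ) : ℤ[X] := C a * X + C b

/-- the quadratic polynomial -/
noncomputable def qd (a b c : ℤ) : ℤ[X] := C a * X ^ 2 + C b * X + C c

/-- the factors -/
noncomputable def P8 : Fin 7 → ℤ[X] :=
  ![ln 1 0, ln 2 1, ln 1 1, ln 3 1, qd 5 4 1, qd 7 6 1, qd 1 (-2) (-1)]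

/-- the classes -/
def c8 : Fin 7 → Fin 3 := ![0, 0, 1, 1, 2, 2, 2]

/-- the multiplicities -/
def m8 : Fin 7 → ℕ := ![4, 4, 4, 4, 2, 1, 1]

/-- the constants -/
def a8 : Fin 3 → ℤ := ![-16, -1, -1]

lemma F80 : FF c8 a8 m8 P8 0 = C (-16) * (ln 1 0 ^ 4 * ln 2 1 ^ 4) := by
  have h : (univ.filter (fun j => c8 j = 0) : Finset (Fin 7)) = {0, 1} := by decide
  unfold FF
  rw [h, prod_pair (by decide)]
  rfl

lemma F81 : FF c8 a8 m8 P8 1 = C (-1) * (ln 1 1 ^ 4 * ln 3 1 ^ 4) := by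
  have h : (univ.filter (fun j => c8 j = 1) : Finset (Fin 7)) = {2, 3} := by decide
  unfold FF
  rw [h, prod_pair (by decide)]
  rfl

lemma F82 : FF c8 a8 m8 P8 2 = C (-1) * (qd 5 4 1 ^ 2 * (qd 7 6 1 ^ 1 * qd 1 (-2) (-1) ^ 1)) := by
  have h : (univ.filter (fun j => c8 j = 2) : Finset (Fin 7)) = {4, 5, 6} := by decide
  unfold FF
  rw [h, prod_insert (by decide), prod_pair (by decide)]
  rfl

lemma hid8 : FF c8 a8 m8 P8 0 - FF c8 a8 m8 P8 1 = FF c8 a8 m8 P8 2 := by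
  rw [F80, F81, F82]
  unfold ln qd
  simp only [map_neg, map_ofNat, map_one, map_zero]
  ring

lemma nd80 : (FF c8 a8 m8 P8 0).natDegree = 8 := by
  rw [F80]
  unfold ln
  compute_degree!

lemma nd81 : (FF c8 a8 m8 P8 1).natDegree = 8 := by
  rw [F81]
  unfold ln
  compute_degree!

lemma nd82 : (FF c8 a8 m8 P8 2).natDegree = 8 := by
  rw [F82]
  unfold qd
  compute_degree!

lemma not_sq2 : ¬ IsSquare (2 : ℚ) := by
  rintro ⟨x, hx⟩
  have h1 : (x : ℝ) ^ 2 = 2 := by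
    have : ((2 : ℚ) : ℝ) = ((x * x : ℚ) : ℝ) := by rw [← hx]
    push_cast at this
    rw [sq]
    exact this.symm
  have h2 : Real.sqrt 2 = |(x : ℝ)| := by rw [← h1, Real.sqrt_sq_eq_abs]
  have h3 := irrational_sqrt_two
  rw [h2] at h3
  apply h3
  refine ⟨|x|, ?_⟩
  push_cast
  rfl

lemma irr_ln {a b : ℤ} (ha : a ≠ 0) : Irreducible (qm (ln a b)) := by
  apply irreducible_of_degree_eq_one
  unfold qm ln
  simp only [Polynomial.map_add, Polynomial.map_mul, Polynomial.map_C, Polynomial.map_X,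
    Int.coe_castRingHom]
  have : (a : ℚ) ≠ 0 := by exact_mod_cast ha
  exact degree_linear this

lemma irr_qd {a b c : ℤ} (ha : a ≠ 0)
    (hr : ∀ x : ℚ, (a : ℚ) * x ^ 2 + b * x + c ≠ 0) : Irreducible (qm (qd a b c)) := by
  have ha' : (a : ℚ) ≠ 0 := by exact_mod_cast ha
  have e : qm (qd a b c) = C (a : ℚ) * X ^ 2 + C (b : ℚ) * X + C (c : ℚ) := by
    unfold qm qd
    simp only [Polynomial.map_add, Polynomial.map_mul, Polynomial.map_C, Polynomial.map_X,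
      Int.coe_castRingHom, Polynomial.map_pow]
  have hd : (qm (qd a b c)).natDegree = 2 := by
    rw [e]
    exact natDegree_quadratic ha'
  apply irreducible_of_degree_le_three_of_not_isRoot
  · rw [hd]
    decide
  · intro x hx
    rw [e, IsRoot.def] at hx
    simp only [eval_add, eval_mul, eval_C, eval_pow, eval_X] at hx
    exact hr x hx

lemma irr8 (j : Fin 7) : Irreducible (qm (P8 j)) := by
  fin_cases j
  · exact irr_ln (by norm_num)
  · exact irr_ln (by norm_num)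
  · exact irr_ln (by norm_num)
  · exact irr_ln (by norm_num)
  · refine irr_qd (by norm_num) fun x hx => ?_
    push_cast at hx
    nlinarith [sq_nonneg (5 * x + 2)]
  · refine irr_qd (by norm_num) fun x hx => not_sq2 ⟨7 * x + 3, ?_⟩
    push_cast at hx
    linear_combination (-7) * hx
  · refine irr_qd (by norm_num) fun x hx => not_sq2 ⟨x - 1, ?_⟩
    push_cast at hx
    linear_combination (-1) * hx

lemma assoc_eval {p q : ℤ[X]} (h : Associated (qm p) (qm q)) (s t : ℤ) :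
    p.eval s * q.eval t = p.eval t * q.eval s := by
  obtain ⟨u, hu⟩ := h
  obtain ⟨k, hk, hku⟩ := Polynomial.isUnit_iff.1 u.isUnit
  have he : ∀ x : ℤ, ((q.eval x : ℤ) : ℚ) = ((p.eval x : ℤ) : ℚ) * k := by
    intro x
    have h1 := congrArg (fun f => f.eval (x : ℚ)) hu
    simp only [← hku, eval_mul, eval_C] at h1
    unfold qm at h1
    have h2 : ∀ f : ℤ[X], (f.map (Int.castRingHom ℚ)).eval (x : ℚ) = ((f.eval x : ℤ) : ℚ) := by
      intro f
      have := Polynomial.eval_intCast_map (Int.castRingHom ℚ) f x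
      simpa using this
    rw [h2, h2] at h1
    exact h1.symm
  have h3 : ((p.eval s * q.eval t : ℤ) : ℚ) = ((p.eval t * q.eval s : ℤ) : ℚ) := by
    push_cast
    rw [he s, he t]
    ring
  exact_mod_cast h3

lemma ev0 (j : Fin 7) : (P8 j).eval 0 = (![0, 1, 1, 1, 1, 1, -1] : Fin 7 → ℤ) j := by
  fin_cases j <;> simp [P8, ln, qd]

lemma ev1 (j : Fin 7) : (P8 j).eval 1 = (![1, 3, 2, 4, 10, 14, -2] : Fin 7 → ℤ) j := by
  fin_cases j <;> simp [P8, ln, qd]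

lemma evm (j : Fin 7) : (P8 j).eval (-1) = (![-1, -1, 0, -2, 2, 2, 2] : Fin 7 → ℤ) j := by
  fin_cases j <;> simp [P8, ln, qd]

lemma na8 (i j : Fin 7) (hij : i ≠ j) : ¬ Associated (qm (P8 i)) (qm (P8 j)) := by
  intro h
  have h1 := assoc_eval h 0 1
  have h2 := assoc_eval h 0 (-1)
  rw [ev0, ev0, ev1, ev1] at h1
  rw [ev0, ev0, evm, evm] at h2
  clear h
  revert i j
  decide

lemma G_dvd {p g s u : ℤ[X]} (h : g - s ^ 2 = p * u) : ∃ S : ℚ[X], qm p ∣ qm g - S ^ 2 := by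
  refine ⟨qm s, qm u, ?_⟩
  unfold qm
  rw [← Polynomial.map_pow, ← Polynomial.map_sub, h, Polynomial.map_mul]

lemma spl8 (j : Fin 7) : Odd (m8 j) ∨ (Even (FF c8 a8 m8 P8 0).natDegree ∧
    ∃ S : ℚ[X], qm (P8 j) ∣ qm (GG c8 a8 m8 P8 j) - S ^ 2) := by
  have hev : Even (FF c8 a8 m8 P8 0).natDegree := by rw [nd80]; decide
  have g0 : ∀ j, c8 j = 0 → GG c8 a8 m8 P8 j = (ln 1 1 ^ 2 * ln 3 1 ^ 2) ^ 2 := by
    intro j hj
    unfold GG
    rw [if_pos hj, F81]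
    simp only [map_neg, map_one]
    ring
  have g1 : ∀ j, c8 j = 1 → GG c8 a8 m8 P8 j = (C 4 * ln 1 0 ^ 2 * ln 2 1 ^ 2) ^ 2 := by
    intro j hj
    unfold GG
    rw [if_neg (by rw [hj]; decide), if_pos hj, F80]
    simp only [map_neg, map_ofNat]
    ring
  have g2 : ∀ j, c8 j = 2 → GG c8 a8 m8 P8 j = C (-16) * (ln 1 0 ^ 4 * ln 2 1 ^ 4) := by
    intro j hj
    unfold GG
    rw [if_neg (by rw [hj]; decide), if_neg (by rw [hj]; decide), F80]
  fin_cases j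
  · exact Or.inr ⟨hev, G_dvd (s := ln 1 1 ^ 2 * ln 3 1 ^ 2) (u := 0) (by rw [g0 _ rfl]; ring)⟩
  · exact Or.inr ⟨hev, G_dvd (s := ln 1 1 ^ 2 * ln 3 1 ^ 2) (u := 0) (by rw [g0 _ rfl]; ring)⟩
  · exact Or.inr ⟨hev, G_dvd (s := C 4 * ln 1 0 ^ 2 * ln 2 1 ^ 2) (u := 0)
      (by rw [g1 _ rfl]; ring)⟩
  · exact Or.inr ⟨hev, G_dvd (s := C 4 * ln 1 0 ^ 2 * ln 2 1 ^ 2) (u := 0)
      (by rw [g1 _ rfl]; ring)⟩
  · refine Or.inr ⟨hev, G_dvd (p := P8 4) (s := C 4 * ln 1 0 ^ 3 * ln 2 1)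
      (u := C (-16) * (ln 1 0 ^ 4 * ln 2 1 ^ 2)) ?_⟩
    rw [g2 _ rfl]
    change _ = qd 5 4 1 * _
    unfold ln qd
    simp only [map_neg, map_ofNat, map_one, map_zero]
    ring
  · exact Or.inl (by decide)
  · exact Or.inl (by decide)

lemma ev_ln {a b : ℤ} (ha : a ≠ 0) (n : ℕ) (m : ℤ) : ev (ln a b) n m = a * m + b * n := by
  have hd : (ln a b).natDegree = 1 := natDegree_linear ha
  have c0 : (ln a b).coeff 0 = b := by
    unfold ln
    rw [coeff_add, coeff_C_mul, coeff_X_zero, coeff_C_zero, mul_zero, zero_add]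
  have c1 : (ln a b).coeff 1 = a := by
    unfold ln
    rw [coeff_add, coeff_C_mul, coeff_X_one, coeff_C, if_neg one_ne_zero, mul_one, add_zero]
  rw [ev_eq_sum hd, sum_range_succ, sum_range_one, c0, c1]
  ring

lemma ev80 (n : ℕ) (m : ℤ) :
    ev (FF c8 a8 m8 P8 0) n m = -(2 * m * (2 * m + n)) ^ 4 := by
  rw [F80, ev_mul, ev_C, ev_mul, ev_pow, ev_pow, ev_ln (by norm_num), ev_ln (by norm_num)]
  ring

lemma ev81 (n : ℕ) (m : ℤ) :
    ev (FF c8 a8 m8 P8 1) n m = -(m ^ 2 - (2 * m + n) ^ 2) ^ 4 := by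
  rw [F81, ev_mul, ev_C, ev_mul, ev_pow, ev_pow, ev_ln (by norm_num), ev_ln (by norm_num)]
  ring

end Pool.Agent.U214.SF
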